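import Mathlib

namespace Pool.Agent.Results.MP_93a94a_an.Never

open Filter Topology Finset

/-- `x` (with `x i` standing for the term of index `i - (2k+2)`) is a positive solution of (E). -/
def IsSol (k : ℕ) (α : ℕ → ℝ) (x : ℕ → ℝ) : Prop :=
  (∀ i, 0 < x i) ∧ ∀ n : ℕ, x (n + 2 * k + 3) =
    α n / ∏ i ∈ range (k + 1), x (n + k + 2 + i) + 1 / ∏ i ∈ range (k + 1), x (n + i)

lemma prod_per (m : ℕ) (y : ℕ → ℝ) (hy : ∀ n, y (n + m) = y n) (n : ℕ) :
    ∏ i ∈ range m, y (n + i) = ∏ i ∈ range m, y i := by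
  induction n with
  | zero => simp
  | succ n ih =>
    rcases m with _ | m
    · simp
    · rw [← ih, prod_range_succ, prod_range_succ' (fun i => y (n + i))]
      have : y (n + 1 + m) = y (n + 0) := by
        rw [show n + 1 + m = n + (m + 1) by ring, hy]; rfl
      rw [this]
      congr 1
      exact prod_congr rfl fun i _ => by congr 1; ring

lemma per_mul (m : ℕ) (y : ℕ → ℝ) (hy : ∀ n, y (n + m) = y n) (n j : ℕ) :
    y (n + m * j) = y n := by
  induction j with
  | zero => simp
  | succ j ih => rw [Nat.mul_succ, ← add_assoc, hy, ih]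

lemma never : ∀ (k p : ℕ) (α : ℕ → ℝ), 2 ≤ p → (∀ n, 0 ≤ α n) →
    IsLeast {q : ℕ | 1 ≤ q ∧ ∀ n, α (n + q) = α n} p →
    ∀ x : ℕ → ℝ, IsSol k α x → ∀ y : ℕ → ℝ, (∀ n, y (n + (k + 2)) = y n) →
      ¬ Tendsto (fun n => x n - y n) atTop (𝓝 0) := by
  intro k p α hp hα hper x hx y hy hlim
  have hp1 := hper.1.2
  -- limits along the progression with step p (k+2)
  have key : ∀ r : ℕ, Tendsto (fun j => x (r + p * (k + 2) * j)) atTop (𝓝 (y r)) := by
    intro r
    have ht : Tendsto (fun j : ℕ => r + p * (k + 2) * j) atTop atTop := by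
      refine tendsto_atTop_mono (fun j => ?_) tendsto_id
      have : 1 ≤ p * (k + 2) := by nlinarith
      simp only [id]; nlinarith
    have h1 := (hlim.comp ht).add_const (y r)
    rw [zero_add] at h1
    refine h1.congr fun j => ?_
    have : y (r + p * (k + 2) * j) = y r := by
      rw [show p * (k + 2) * j = (k + 2) * (p * j) by ring, per_mul _ _ hy]
    simp [this]
  set c := ∏ i ∈ range (k + 2), y i with hc
  have eqn : ∀ n, c * ∏ i ∈ range (k + 1), y (n + i) =
      (α n + 1) * ∏ i ∈ range (k + 1), y (n + i) := by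
    intro n
    have hA : Tendsto (fun j => ∏ i ∈ range (k + 1), x (n + i + p * (k + 2) * j)) atTop
        (𝓝 (∏ i ∈ range (k + 1), y (n + i))) := tendsto_finsetProd _ fun i _ => key _
    have hB : Tendsto (fun j => ∏ i ∈ range (k + 1), x (n + k + 2 + i + p * (k + 2) * j)) atTop
        (𝓝 (∏ i ∈ range (k + 1), y (n + i))) := by
      have := tendsto_finsetProd (range (k + 1)) fun i _ => key (n + k + 2 + i)
      have e : ∏ i ∈ range (k + 1), y (n + k + 2 + i) = ∏ i ∈ range (k + 1), y (n + i) :=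
        prod_congr rfl fun i _ => by rw [show n + k + 2 + i = n + i + (k + 2) by ring, hy]
      rwa [e] at this
    have hC := key (n + 2 * k + 3)
    have h1 := (hC.mul hB).mul hA
    have h2 := (hA.const_mul (α n)).add hB
    have h3 := tendsto_nhds_unique h1 (h2.congr fun j => ?_)
    · have e : y (n + 2 * k + 3) * ∏ i ∈ range (k + 1), y (n + i) = c := by
        rw [hc, ← prod_per _ y hy n, prod_range_succ _ (k + 1), mul_comm,
          show n + 2 * k + 3 = n + (k + 1) + (k + 2) by ring, hy]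
      rw [e] at h3; rw [h3]; ring
    · have h4 := hx.2 (n + p * (k + 2) * j)
      have ha : α (n + p * (k + 2) * j) = α n := by rw [mul_assoc, per_mul _ _ hp1]
      have e1 : ∏ i ∈ range (k + 1), x (n + p * (k + 2) * j + k + 2 + i) =
          ∏ i ∈ range (k + 1), x (n + k + 2 + i + p * (k + 2) * j) :=
        prod_congr rfl fun i _ => by congr 1; ring
      have e2 : ∏ i ∈ range (k + 1), x (n + p * (k + 2) * j + i) =
          ∏ i ∈ range (k + 1), x (n + i + p * (k + 2) * j) :=
        prod_congr rfl fun i _ => by congr 1; ring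
      rw [ha, e1, e2, show n + p * (k + 2) * j + 2 * k + 3 = n + 2 * k + 3 + p * (k + 2) * j by
        ring] at h4
      have p1 : 0 < ∏ i ∈ range (k + 1), x (n + k + 2 + i + p * (k + 2) * j) :=
        prod_pos fun i _ => hx.1 _
      have p2 : 0 < ∏ i ∈ range (k + 1), x (n + i + p * (k + 2) * j) :=
        prod_pos fun i _ => hx.1 _
      rw [h4]; field_simp
  -- the coefficient sequence is constant
  have hconst : ∃ a : ℝ, ∀ n, α n = a := by
    by_cases h0 : c = 0
    · refine ⟨0, fun n => ?_⟩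
      have hB : Tendsto (fun j => ∏ i ∈ range (k + 2), x (n + k + 2 + i + p * (k + 2) * j)) atTop
          (𝓝 0) := by
        have := tendsto_finsetProd (range (k + 2)) fun i _ => key (n + k + 2 + i)
        rwa [prod_per _ y hy (n + k + 2), ← hc, h0] at this
      refine le_antisymm (ge_of_tendsto' hB fun j => ?_) (hα n)
      have h4 := hx.2 (n + p * (k + 2) * j)
      have ha : α (n + p * (k + 2) * j) = α n := by rw [mul_assoc, per_mul _ _ hp1]
      have e1 : ∏ i ∈ range (k + 1), x (n + p * (k + 2) * j + k + 2 + i) =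
          ∏ i ∈ range (k + 1), x (n + k + 2 + i + p * (k + 2) * j) :=
        prod_congr rfl fun i _ => by congr 1; ring
      rw [ha, e1, show n + p * (k + 2) * j + 2 * k + 3 = n + k + 2 + (k + 1) + p * (k + 2) * j by
        ring] at h4
      have p1 : 0 < ∏ i ∈ range (k + 1), x (n + k + 2 + i + p * (k + 2) * j) :=
        prod_pos fun i _ => hx.1 _
      have p2 : 0 < ∏ i ∈ range (k + 1), x (n + p * (k + 2) * j + i) :=
        prod_pos fun i _ => hx.1 _
      rw [prod_range_succ _ (k + 1), h4, mul_add, mul_div_cancel₀ _ p1.ne']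
      have : 0 ≤ (∏ i ∈ range (k + 1), x (n + k + 2 + i + p * (k + 2) * j)) *
          (1 / ∏ i ∈ range (k + 1), x (n + p * (k + 2) * j + i)) := by positivity
      linarith
    · refine ⟨c - 1, fun n => ?_⟩
      have hne : ∏ i ∈ range (k + 1), y (n + i) ≠ 0 := by
        intro h
        apply h0
        rw [hc, ← prod_per _ y hy n, prod_range_succ _ (k + 1), h, zero_mul]
      have := mul_right_cancel₀ hne (eqn n)
      linarith
  obtain ⟨a, ha⟩ := hconst
  have := hper.2 (show 1 ∈ {q : ℕ | 1 ≤ q ∧ ∀ n, α (n + q) = α n} from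
    ⟨le_rfl, fun n => by rw [ha, ha]⟩)
  omega

noncomputable def sol (k : ℕ) (α : ℕ → ℝ) (i : ℕ) : ℝ :=
  if _h : i < 2 * k + 3 then 1 else
    α (i - (2 * k + 3)) / ∏ j : Fin (k + 1), sol k α (i - (2 * k + 3) + k + 2 + j) +
      1 / ∏ j : Fin (k + 1), sol k α (i - (2 * k + 3) + j)
termination_by i
decreasing_by all_goals (have := j.isLt; omega)

lemma sol_isSol (k : ℕ) (α : ℕ → ℝ) (hα : ∀ n, 0 ≤ α n) : IsSol k α (sol k α) := by
  constructor
  · intro i
    induction i using Nat.strong_induction_on with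
    | _ i ih =>
      rw [sol]
      split_ifs with h
      · norm_num
      · have p1 : 0 < ∏ j : Fin (k + 1), sol k α (i - (2 * k + 3) + k + 2 + j) :=
          prod_pos fun j _ => ih _ (by have := j.isLt; omega)
        have p2 : 0 < ∏ j : Fin (k + 1), sol k α (i - (2 * k + 3) + j) :=
          prod_pos fun j _ => ih _ (by have := j.isLt; omega)
        have := hα (i - (2 * k + 3))
        positivity
  · intro n
    rw [sol, dif_neg (by omega), show n + 2 * k + 3 - (2 * k + 3) = n by omega,
      Fin.prod_univ_eq_prod_range (fun j => sol k α (n + k + 2 + j)),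
      Fin.prod_univ_eq_prod_range (fun j => sol k α (n + j))]

theorem result : ∀ (k p : ℕ) (α : ℕ → ℝ), 2 ≤ p → (∀ n, 0 ≤ α n) →
    IsLeast {q : ℕ | 1 ≤ q ∧ ∀ n, α (n + q) = α n} p →
    (∃ x : ℕ → ℝ, IsSol k α x) ∧
    ∀ x : ℕ → ℝ, IsSol k α x → ∀ y : ℕ → ℝ, (∀ n, y (n + (k + 2)) = y n) →
      ¬ Tendsto (fun n => x n - y n) atTop (𝓝 0) :=
  fun k p α hp hα hper => ⟨⟨_, sol_isSol k α hα⟩, never k p α hp hα hper⟩

end Pool.Agent.Results.MP_93a94a_an.Never
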